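import Pool.Agent.W845.TR.Base

set_option autoImplicit false

/-!
Project TR (MP_985e29_pr): isoperimetric inequality in a box.
-/

namespace Pool.Agent.W998.TR

open Pool.Agent.W845.TR Finset

/-- A change of a property between two integers. -/
lemma exists_change (P : ℤ → Prop) (s t : ℤ) (hs : P s) (ht : ¬ P t) :
    ∃ r, min s t ≤ r ∧ r < max s t ∧ ¬ (P r ↔ P (r + 1)) := by
  by_contra hcon
  push Not at hcon
  rcases le_total s t with hst | hst
  · rw [min_eq_left hst, max_eq_right hst] at hcon
    have h : ∀ m : ℕ, s + m ≤ t → P (s + m) := by
      intro m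
      induction m with
      | zero => intro _; simpa using hs
      | succ m ih =>
        intro hm
        push_cast at hm ⊢
        have h1 := ih (by omega)
        have h2 := (hcon (s + m) (by omega) (by omega)).1 h1
        rw [← add_assoc]
        exact h2
    apply ht
    have := h (t - s).toNat (by omega)
    have h3 : s + ((t - s).toNat : ℤ) = t := by omega
    rwa [h3] at this
  · rw [min_eq_right hst, max_eq_left hst] at hcon
    have h : ∀ m : ℕ, t + m ≤ s → ¬ P (t + m) := by
      intro m
      induction m with
      | zero => intro _; simpa using ht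
      | succ m ih =>
        intro hm hP
        push_cast at hm hP
        have h1 := ih (by omega)
        apply h1
        apply (hcon (t + m) (by omega) (by omega)).2
        rw [← add_assoc] at hP
        exact hP
    have := h (s - t).toNat (by omega)
    have h3 : t + ((s - t).toNat : ℤ) = s := by omega
    rw [h3] at this
    exact this hs

variable {d : ℕ}

/-- The hybrid points. -/
def hyb (x y : S d) (i : ℕ) : S d := fun l => if l.val < i then y l else x l

lemma exists_hyb (W : Finset (S d)) (x y : S d) (hx : x ∈ W) (hy : y ∉ W) :
    ∃ i : Fin d, hyb x y i.val ∈ W ∧ hyb x y (i.val + 1) ∉ W := by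
  by_contra hcon
  push Not at hcon
  have h : ∀ m : ℕ, m ≤ d → hyb x y m ∈ W := by
    intro m
    induction m with
    | zero =>
      intro _
      have : hyb x y 0 = x := by funext l; simp [hyb]
      rwa [this]
    | succ m ih =>
      intro hm
      exact hcon ⟨m, by omega⟩ (ih (by omega))
  have h2 := h d le_rfl
  have h3 : hyb x y d = y := by funext l; simp [hyb]
  rw [h3] at h2
  exact hy h2

/-- Recovery of the pair. -/
def rec' (a : S d) (q : (S d × Fin d) × ℕ × S d) : S d × S d :=
  (fun l => if l < q.1.2 then q.2.2 l else if l = q.1.2 then a l + q.2.1 else q.1.1 l,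
   fun l => if l < q.1.2 then q.1.1 l else q.2.2 l)

theorem iso : St_ISO := by
  intro d a b n Wc hn
  set Q := Finset.Icc a b with hQ
  set E := (eb Wc).filter (fun e => e.1 ∈ Q ∧ e.1 + ue e.2 ∈ Q) with hE
  have hsub : (Wc ∩ Q) ×ˢ (Q \ Wc) ⊆ (E ×ˢ (Finset.range n ×ˢ Q)).image (rec' a) := by
    rintro ⟨x, y⟩ hp
    rw [Finset.mem_product] at hp
    obtain ⟨h1, h2⟩ := hp
    rw [Finset.mem_inter] at h1
    rw [Finset.mem_sdiff] at h2
    simp only at h1 h2
    obtain ⟨hxW, hxQ⟩ := h1
    obtain ⟨hyQ, hyW⟩ := h2
    obtain ⟨i, hi1, hi2⟩ := exists_hyb Wc x y hxW hyW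
    have hx := Finset.mem_Icc.1 hxQ
    have hy := Finset.mem_Icc.1 hyQ
    have hu1 : Function.update (hyb x y i.val) i (x i) = hyb x y i.val := by
      funext l
      by_cases hl : l = i
      · subst hl; simp [hyb]
      · simp [hl]
    have hu2 : Function.update (hyb x y i.val) i (y i) = hyb x y (i.val + 1) := by
      funext l
      by_cases hl : l = i
      · subst hl; simp [hyb]
      · have hl' : l.val ≠ i.val := fun h => hl (Fin.ext h)
        rw [Function.update_of_ne hl]
        simp only [hyb]
        by_cases h : l.val < i.val
        · rw [if_pos h, if_pos (by omega)]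
        · rw [if_neg h, if_neg (by omega)]
    obtain ⟨r, hr1, hr2, hr3⟩ := exists_change
      (fun t => Function.update (hyb x y i.val) i t ∈ Wc) (x i) (y i)
      (by simp only [hu1]; exact hi1) (by simp only [hu2]; exact hi2)
    have hinQ : ∀ t : ℤ, a i ≤ t → t ≤ b i → Function.update (hyb x y i.val) i t ∈ Q := by
      intro t ht1 ht2
      rw [hQ, Finset.mem_Icc]
      constructor
      · intro l
        by_cases hl : l = i
        · subst hl; simpa using ht1
        · rw [Function.update_of_ne hl]
          simp only [hyb]
          split_ifs
          · exact hy.1 l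
          · exact hx.1 l
      · intro l
        by_cases hl : l = i
        · subst hl; simpa using ht2
        · rw [Function.update_of_ne hl]
          simp only [hyb]
          split_ifs
          · exact hy.2 l
          · exact hx.2 l
    have hadd : Function.update (hyb x y i.val) i r + ue i
        = Function.update (hyb x y i.val) i (r + 1) := by
      funext l
      by_cases hl : l = i
      · subst hl; simp [ue]
      · simp [ue, hl]
    have hxa : a i ≤ x i := hx.1 i
    have hxb : x i ≤ b i := hx.2 i
    have hya : a i ≤ y i := hy.1 i
    have hyb' : y i ≤ b i := hy.2 i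
    have hr1' : a i ≤ r := le_trans (le_min hxa hya) hr1
    have hr2' : r + 1 ≤ b i := le_trans (by omega) (max_le hxb hyb')
    have hmem : ∀ e : S d × Fin d, ¬ (e.1 ∈ Wc ↔ e.1 + ue e.2 ∈ Wc) → e ∈ eb Wc := by
      intro e he
      rw [eb, Finset.mem_filter]
      refine ⟨?_, he⟩
      rw [Finset.mem_product]
      refine ⟨?_, Finset.mem_univ _⟩
      rw [Finset.mem_union]
      by_cases h : e.1 ∈ Wc
      · exact Or.inl h
      · right
        rw [Finset.mem_biUnion]
        refine ⟨e.1 + ue e.2, ?_, ?_⟩
        · by_contra h'
          exact he ⟨fun h1 => absurd h1 h, fun h1 => absurd h1 h'⟩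
        · rw [nb, Finset.mem_union]
          right
          rw [Finset.mem_image]
          exact ⟨e.2, Finset.mem_univ _, by abel⟩
    rw [Finset.mem_image]
    refine ⟨((Function.update (hyb x y i.val) i r, i), (x i - a i).toNat,
      fun l => if l.val < i.val then x l else y l), ?_, ?_⟩
    · rw [Finset.mem_product, Finset.mem_product]
      refine ⟨?_, ?_, ?_⟩
      · rw [hE, Finset.mem_filter]
        refine ⟨hmem _ ?_, ?_, ?_⟩
        · simp only
          rw [hadd]
          exact hr3
        · exact hinQ r hr1' (by omega)
        · simp only
          rw [hadd]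
          exact hinQ (r + 1) (by omega) hr2'
      · simp only [Finset.mem_range]
        have := hn i
        omega
      · simp only
        rw [hQ, Finset.mem_Icc]
        constructor
        · intro l
          simp only
          split_ifs
          · exact hx.1 l
          · exact hy.1 l
        · intro l
          simp only
          split_ifs
          · exact hx.2 l
          · exact hy.2 l
    · simp only [rec']
      refine Prod.ext ?_ ?_
      · funext l
        simp only
        by_cases h1 : l < i
        · rw [if_pos h1, if_pos (Fin.lt_def.1 h1)]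
        · rw [if_neg h1]
          by_cases h2 : l = i
          · subst h2
            rw [if_pos rfl]
            omega
          · rw [if_neg h2, Function.update_of_ne h2]
            simp only [hyb]
            rw [if_neg (fun h => h1 (Fin.lt_def.2 h))]
      · funext l
        simp only
        by_cases h1 : l < i
        · rw [if_pos h1, Function.update_of_ne (ne_of_lt h1)]
          simp only [hyb]
          rw [if_pos (Fin.lt_def.1 h1)]
        · rw [if_neg h1, if_neg (fun h => h1 (Fin.lt_def.2 h))]
  calc (Wc ∩ Q).card * (Q \ Wc).card = ((Wc ∩ Q) ×ˢ (Q \ Wc)).card := by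
        rw [Finset.card_product]
    _ ≤ ((E ×ˢ (Finset.range n ×ˢ Q)).image (rec' a)).card := Finset.card_le_card hsub
    _ ≤ (E ×ˢ (Finset.range n ×ˢ Q)).card := Finset.card_image_le
    _ = n * Q.card * E.card := by
        rw [Finset.card_product, Finset.card_product, Finset.card_range]
        ring

end Pool.Agent.W998.TR
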